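import Mathlib
import Pool.Agent.H16.Sand

namespace Pool.Agent.Results.MP_8ee885_co.Counter

open Matrix Pool.Agent.H16.Sand

/-- The group `F_2^r`. -/
abbrev V (r : ℕ) := Fin r → ZMod 2

/-- The Laplacian of the Cayley multigraph with `μ u` edges between `w` and `w + u` (`u ≠ 0`). -/
def lap {r : ℕ} (μ : V r → ℕ) : Matrix (V r) (V r) ℤ := fun u v =>
  if u = v then ∑ w ∈ {w | w ≠ 0}, (μ w : ℤ) else -μ (u + v)

/-- The cokernel of the Laplacian. -/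
abbrev coker {r : ℕ} (μ : V r → ℕ) := (V r → ℤ) ⧸ LinearMap.range (lap μ).mulVecLin

/-- The sandpile group: the torsion part of the cokernel of the Laplacian. -/
abbrev K {r : ℕ} (μ : V r → ℕ) := Submodule.torsion ℤ (coker μ)

/-- generator multiset with gcd `1`: no copy of `0`, the support spans, gcd of multiplicities `1` -/
def Gen {r : ℕ} (μ : V r → ℕ) : Prop :=
  μ 0 = 0 ∧ Submodule.span (ZMod 2) {u | μ u ≠ 0} = ⊤ ∧ Finset.univ.gcd μ = 1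

/-- the eigenvalue `λ_u = 2 #{i : u · v_i = 1}` -/
def lam {r : ℕ} (μ : V r → ℕ) (u : V r) : ℕ := 2 * ∑ v with u ⬝ᵥ v = 1, μ v

lemma sp {r : ℕ} (μ : V r → ℕ) (h : ∀ u, μ u ≠ 0 ∨ ∃ a b, μ a ≠ 0 ∧ μ b ≠ 0 ∧ u = a + b) :
    Submodule.span (ZMod 2) {u | μ u ≠ 0} = ⊤ := eq_top_iff.2 fun u _ => by
  rcases h u with h | ⟨a, b, ha, hb, rfl⟩
  · exact Submodule.subset_span h
  · exact add_mem (Submodule.subset_span ha) (Submodule.subset_span hb)

/-- `dim A ⊗ Z/2` -/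
noncomputable def rk2 (A : Type) [AddCommGroup A] : ℕ :=
  Module.finrank (ZMod 2) (TensorProduct ℤ (ZMod 2) A)

/-- `d(M) = dim K ⊗ Z/2` -/
noncomputable def dM {r : ℕ} (μ : V r → ℕ) : ℕ := rk2 (K μ)

def ix (u : V 2) : Fin 4 := ⟨(u 0).val + 2 * (u 1).val, by
  have := (u 0).val_lt; have := (u 1).val_lt; omega⟩

def M (A : Matrix (Fin 4) (Fin 4) ℤ) : Matrix (V 2) (V 2) ℤ := A.submatrix ix ix
def P₁ := M !![-1, 0, 0, 0; -5, -1, 0, 0; 2, 1, 1, 0; 1, 1, 1, 1]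
def P'₁ := M !![-1, 0, 0, 0; 5, -1, 0, 0; -3, 1, 1, 0; -1, 0, -1, 1]
def Q₁ := M !![0, 0, 1, 1; 1, -1, 2, 1; 0, 1, 3, 1; 0, 0, 0, 1]
def Q'₁ := M !![-5, 1, 1, 3; -3, 0, 1, 2; 1, 0, 0, -1; 0, 0, 0, 1]
def d₁ (u : V 2) : ℕ := ![1, 8, 8, 0] (ix u)
def μ₀ (u : V 2) : ℕ := ![0, 1, 1, 3] (ix u)

lemma cc (d : ℕ) (h : d ∈ ({0, 1, 8} : Finset ℕ)) :
    Nat.card {x : ZMod d // 2 • x = 0} = if d < 2 then 1 else 2 := by
  simp only [Finset.mem_insert, Finset.mem_singleton] at h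
  rcases h with rfl | rfl | rfl
  · exact c0
  all_goals (rw [Nat.card_eq_fintype_card]; decide +kernel)

theorem result : ∃ μ : V 2 → ℕ, Gen μ ∧
    (∃ u ≠ 0, ∃ v ≠ 0, padicValNat 2 (lam μ u) ≠ padicValNat 2 (lam μ v)) ∧ Even (dM μ) := by
  refine ⟨μ₀, ⟨by decide, sp _ (by decide +kernel), by decide +kernel⟩,
    ⟨![1, 0], by decide, ![1, 1], by decide, ?_⟩, ?_⟩
  · have a : lam μ₀ ![1, 0] = 2 ^ 3 := by decide +kernel
    have b : lam μ₀ ![1, 1] = 2 ^ 2 := by decide +kernel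
    rw [a, b, padicValNat.prime_pow, padicValNat.prime_pow]
    decide
  obtain ⟨e₁⟩ := snf (L := lap μ₀) (P := P₁) (P' := P'₁) (Q := Q₁) (Q' := Q'₁) (d := d₁)
    (by decide +kernel) (by decide +kernel) (by decide +kernel)
  have : Finite (K μ₀) := Module.finite_of_fg_torsion _ Submodule.torsion_isTorsion
  have a := card_tensor (K μ₀)
  rw [two_tors e₁, Finset.prod_congr rfl fun u _ => cc (d₁ u) (by revert u; decide),
    Module.natCard_eq_pow_finrank (K := ZMod 2), Nat.card_zmod] at a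
  have b : 2 ^ dM μ₀ = 2 ^ 2 := a.trans (by decide +kernel)
  rw [Nat.pow_right_injective le_rfl b]
  decide

end Pool.Agent.Results.MP_8ee885_co.Counter
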